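import Pool.Agent.Y234.EM.Stm

/-!
# Points in general position (job EM-PTS)
-/

set_option autoImplicit false

namespace Pool.Agent.Y387.EM

open MvPolynomial Pool.Agent.Y234.EM

/-- the number of exponents of degree at most `m` -/
theorem card_exp (v m : ℕ) :
    Nat.card {s : Fin v →₀ ℕ | (s.sum fun _ e => e) ≤ m} ≤ (m + v).choose v := by
  classical
  have h1 : ((Finset.univ : Finset (Fin (v + 1))).finsuppAntidiag m).card = (m + v).choose v := by
    rw [Finset.card_finsuppAntidiag_nat_eq_choose, Finset.card_univ, Fintype.card_fin]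
    have h2 : v + 1 + m - 1 = m + v := by omega
    rw [h2, Nat.choose_symm_add]
  rw [← h1, ← Nat.card_eq_finsetCard]
  refine Nat.card_le_card_of_injective
    (fun s : {s : Fin v →₀ ℕ | (s.sum fun _ e => e) ≤ m} =>
      (⟨Finsupp.cons (m - s.1.sum fun _ e => e) s.1, ?_⟩ :
        {x // x ∈ (Finset.univ : Finset (Fin (v + 1))).finsuppAntidiag m})) ?_
  · rw [Finset.mem_finsuppAntidiag]
    refine ⟨?_, Finset.subset_univ _⟩
    have h3 := Finsupp.sum_cons v s.1 (m - s.1.sum fun _ e => e)
    rw [Finsupp.sum_fintype _ _ (fun _ => rfl)] at h3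
    rw [h3]
    have h4 := s.2
    simp only [Set.mem_ofPred_eq] at h4
    omega
  · intro s t hst
    have h5 := congrArg (fun x => Finsupp.tail x.1) hst
    simp only [Finsupp.tail_cons] at h5
    exact Subtype.ext h5

theorem pts : S_PTS := by
  intro k _ _ v N h hh hN
  classical
  obtain ⟨m, rfl⟩ : ∃ m, N = m + 1 := ⟨N - 1, by omega⟩
  -- the space of polynomials of degree at most `m`
  set W := restrictTotalDegree (Fin v) k m with hW
  have hfr : Module.finrank k W ≤ cn (m + 1) v := by
    have h1 := Module.finrank_eq_nat_card_basis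
      (basisRestrictSupport k {s : Fin v →₀ ℕ | (s.sum fun _ e => e) ≤ m})
    have h2 : Module.finrank k W = Nat.card {s : Fin v →₀ ℕ | (s.sum fun _ e => e) ≤ m} := h1
    rw [h2]
    have h3 : cn (m + 1) v = (m + v).choose v := by
      unfold cn
      congr 1
      omega
    rw [h3]
    exact card_exp v m
  have key : ∀ n : ℕ, ∃ c : Fin n → Fin v → k, (∀ j, eval (c j) h ≠ 0) ∧
      ∃ U : Submodule k (MvPolynomial (Fin v) k), U ≤ W ∧ Module.finrank k U ≤
        Module.finrank k W - n ∧ ∀ G ∈ W, (∀ j, eval (c j) G = 0) → G ∈ U := by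
    intro n
    induction n with
    | zero => exact ⟨Fin.elim0, fun j => j.elim0, W, le_rfl, by simp, fun G hG _ => hG⟩
    | succ n ih =>
      obtain ⟨c, hc, U, hU1, hU2, hU3⟩ := ih
      have hfin : FiniteDimensional k U := Submodule.finiteDimensional_of_le hU1
      by_cases hUb : U = ⊥
      · -- any further point
        obtain ⟨x, hx⟩ : ∃ x, eval x h ≠ 0 := by
          by_contra hcon
          push Not at hcon
          exact hh (MvPolynomial.funext fun x => by rw [hcon x, map_zero])
        refine ⟨Fin.cons x c, ?_, U, hU1, by rw [hUb, finrank_bot]; exact Nat.zero_le _, ?_⟩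
        · intro j
          refine Fin.cases ?_ (fun i => ?_) j
          · simpa using hx
          · simpa using hc i
        · intro G hG hG2
          exact hU3 G hG fun j => by simpa using hG2 j.succ
      · obtain ⟨G, hGU, hG0⟩ := Submodule.exists_mem_ne_zero_of_ne_bot hUb
        obtain ⟨x, hx⟩ : ∃ x, eval x (G * h) ≠ 0 := by
          by_contra hcon
          push Not at hcon
          exact mul_ne_zero hG0 hh (MvPolynomial.funext fun x => by rw [hcon x, map_zero])
        rw [map_mul] at hx
        have hx1 : eval x G ≠ 0 := left_ne_zero_of_mul hx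
        have hx2 : eval x h ≠ 0 := right_ne_zero_of_mul hx
        set U' : Submodule k (MvPolynomial (Fin v) k) :=
          U ⊓ LinearMap.ker (aeval x : MvPolynomial (Fin v) k →ₐ[k] k).toLinearMap with hU'
        have hlt : U' < U := by
          refine lt_of_le_of_ne inf_le_left fun heq => ?_
          have hG' : G ∈ U' := by rw [heq]; exact hGU
          have h6 := (Submodule.mem_inf.1 hG').2
          rw [LinearMap.mem_ker] at h6
          apply hx1
          simpa [aeval_eq_eval] using h6
        have hfl := Submodule.finrank_lt_finrank_of_lt hlt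
        refine ⟨Fin.cons x c, ?_, U', hlt.le.trans hU1, by omega, ?_⟩
        · intro j
          refine Fin.cases ?_ (fun i => ?_) j
          · simpa using hx2
          · simpa using hc i
        · intro G' hG' hG2
          refine Submodule.mem_inf.2 ⟨hU3 G' hG' fun j => by simpa using hG2 j.succ, ?_⟩
          rw [LinearMap.mem_ker]
          have h7 := hG2 0
          simpa [aeval_eq_eval] using h7
  obtain ⟨c, hc, U, hU1, hU2, hU3⟩ := key (cn (m + 1) v)
  refine ⟨c, hc, fun G hG hG0 => ?_⟩
  have hGW : G ∈ W := by
    rw [hW, mem_restrictTotalDegree]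
    omega
  have hGU := hU3 G hGW hG0
  have hfin : FiniteDimensional k U := Submodule.finiteDimensional_of_le hU1
  have h0 : Module.finrank k U = 0 := by omega
  rw [Submodule.finrank_eq_zero] at h0
  rw [h0] at hGU
  simpa using hGU

end Pool.Agent.Y387.EM
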